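import Mathlib

/-!
# A weak `(2,0)`-ring in the sense of Mahdou with positive small finitistic dimension
-/

set_option autoImplicit false

open CategoryTheory TrivSqZeroExt Polynomial

namespace Pool.Agent.Results.MP_682377_al.WeakTwoZero

universe u

/-- `NPresented R n M`: there is an exact sequence `F_n → ⋯ → F_0 → M → 0` with all `F_i` finitely
generated free. For `n = 0` this says that `M` is finitely generated; `M` is `(n+1)`-presented if
there is a surjection `R ^ k → M` whose kernel is `n`-presented. -/
def NPresented (R : Type u) [CommRing R] :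
    ℕ → ∀ (M : Type u) [AddCommGroup M] [Module R M], Prop
  | 0, M, _, _ => Module.Finite R M
  | n + 1, M, _, _ => ∃ (k : ℕ) (f : (Fin k → R) →ₗ[R] M), Function.Surjective f ∧
      NPresented R n (LinearMap.ker f)

/-- Weak `(n,d)`-rings in the sense of Mahdou: every `n`-presented cyclic module `R ⧸ I` has
projective dimension at most `d`. -/
def WeakMahdou (R : Type u) [CommRing R] (n d : ℕ) : Prop :=
  ∀ I : Ideal R, NPresented R n (R ⧸ I) → projectiveDimension (ModuleCat.of R (R ⧸ I)) ≤ d

/-- `FiniteRes R m M`: there is an exact sequence `0 → P_m → ⋯ → P_0 → M → 0` with all `P_i`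
finitely generated projective. -/
def FiniteRes (R : Type u) [CommRing R] :
    ℕ → ∀ (M : Type u) [AddCommGroup M] [Module R M], Prop
  | 0, M, _, _ => Module.Finite R M ∧ Module.Projective R M
  | m + 1, M, _, _ => ∃ (P : Type u) (_ : AddCommGroup P) (_ : Module R P) (f : P →ₗ[R] M),
      Module.Finite R P ∧ Module.Projective R P ∧ Function.Surjective f ∧
        FiniteRes R m (LinearMap.ker f)

/-- The small finitistic dimension of `R`: the supremum of the projective dimensions of all modules
with a finite resolution by finitely generated projective modules. -/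
noncomputable def fPD (R : Type u) [CommRing R] : WithBot ℕ∞ :=
  ⨆ (M : ModuleCat.{u} R) (_ : ∃ m, FiniteRes R m M), projectiveDimension M

/-! ### General lemmas -/

section General

variable {R : Type u} [CommRing R]

lemma NPresented.pred {n : ℕ} : ∀ {M : Type u} [AddCommGroup M] [Module R M],
    NPresented R (n + 1) M → NPresented R n M := by
  induction n with
  | zero =>
    intro M _ _ h
    obtain ⟨k, f, hf, -⟩ := h
    exact Module.Finite.of_surjective f hf
  | succ n ih =>
    intro M _ _ h
    obtain ⟨k, f, hf, hk⟩ := h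
    exact ⟨k, f, hf, ih hk⟩

lemma NPresented.mono {n : ℕ} {M : Type u} [AddCommGroup M] [Module R M] :
    ∀ {m : ℕ}, n ≤ m → NPresented R m M → NPresented R n M := by
  intro m hm
  induction m, hm using Nat.le_induction with
  | base => exact id
  | succ m _ ih => exact fun h => ih h.pred

lemma NPresented.finitePresentation {M : Type u} [AddCommGroup M] [Module R M]
    (h : NPresented R 1 M) : Module.FinitePresentation R M := by
  obtain ⟨k, f, hf, hk⟩ := h
  have : Module.Finite R (LinearMap.ker f) := hk
  exact Module.finitePresentation_of_surjective f hf (Module.Finite.iff_fg.1 this)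

/-- If `R ⧸ I` is `2`-presented then `I` is finitely presented. -/
lemma fp_of_twoPresented (I : Ideal R) (h : NPresented R 2 (R ⧸ I)) :
    Module.FinitePresentation R I := by
  obtain ⟨k, f, hf, hk⟩ := h
  have hfp : Module.FinitePresentation R (LinearMap.ker f) := hk.finitePresentation
  obtain ⟨φ, hφ⟩ := Module.projective_lifting_property (I.mkQ) f (Submodule.mkQ_surjective I)
  obtain ⟨ψ, hψ⟩ := Module.projective_lifting_property f (I.mkQ) hf
  have hφ' : ∀ v, Submodule.Quotient.mk (p := I) (φ v) = f v := fun v => by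
    rw [← hφ]; rfl
  have hψ' : ∀ r, f (ψ r) = Submodule.Quotient.mk (p := I) r := fun r => by
    rw [← LinearMap.comp_apply, hψ]; rfl
  let Θ' : (LinearMap.ker f × R) →ₗ[R] R :=
    (φ ∘ₗ (LinearMap.ker f).subtype) ∘ₗ LinearMap.fst R _ _ +
      (LinearMap.id - φ ∘ₗ ψ) ∘ₗ LinearMap.snd R _ _
  have hΘ' : ∀ v, Θ' v ∈ I := by
    rintro ⟨⟨v, hv⟩, r⟩
    rw [← Submodule.Quotient.mk_eq_zero]
    simp only [Θ', LinearMap.add_apply, LinearMap.comp_apply, LinearMap.fst_apply,
      LinearMap.snd_apply, LinearMap.sub_apply, LinearMap.id_apply, Submodule.subtype_apply,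
      Submodule.Quotient.mk_add, Submodule.Quotient.mk_sub, hφ', hψ', sub_self, add_zero]
    exact hv
  let Θ : (LinearMap.ker f × R) →ₗ[R] I := Θ'.codRestrict I hΘ'
  have hsurj : Function.Surjective Θ := by
    rintro ⟨r, hr⟩
    refine ⟨(⟨ψ r, ?_⟩, r), ?_⟩
    · rw [LinearMap.mem_ker, hψ', Submodule.Quotient.mk_eq_zero]; exact hr
    · apply Subtype.ext
      simp [Θ, Θ']
  have hkf : ∀ w, ψ (φ w) - w ∈ LinearMap.ker f := by
    intro w
    rw [LinearMap.mem_ker, map_sub, hψ', hφ', sub_self]
  let κ : (Fin k → R) →ₗ[R] (LinearMap.ker f × R) :=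
    ((ψ ∘ₗ φ - LinearMap.id).codRestrict (LinearMap.ker f) hkf).prod φ
  have hker : LinearMap.ker Θ = LinearMap.range κ := by
    ext ⟨⟨v, hv⟩, r⟩
    constructor
    · intro h
      have h1 : φ v + (r - φ (ψ r)) = 0 := congrArg Subtype.val (LinearMap.mem_ker.1 h)
      refine ⟨ψ r - v, ?_⟩
      have h2 : φ (ψ r - v) = r := by
        rw [map_sub]
        linear_combination -h1
      apply Prod.ext
      · apply Subtype.ext
        show ψ (φ (ψ r - v)) - (ψ r - v) = v
        rw [h2]; abel
      · exact h2
    · rintro ⟨w, hw⟩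
      rw [LinearMap.mem_ker, ← hw]
      apply Subtype.ext
      show φ (ψ (φ w) - w) + (φ w - φ (ψ (φ w))) = 0
      rw [map_sub]; ring
  have : Module.FinitePresentation R (LinearMap.ker f × R) := by
    infer_instance
  refine Module.finitePresentation_of_surjective Θ hsurj ?_
  rw [hker]
  exact Submodule.FG.of_finite

end General

/-! ### The ring -/

section Ring

variable (A : Type u) [CommRing A]

/-- The `A`-module `K / A`, where `K` is the fraction field of `A`. -/
abbrev KmodA : Type u := FractionRing A ⧸ LinearMap.range (Algebra.linearMap A (FractionRing A))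

/-- The module `E`, a countable direct sum of copies of `A × K / A`. -/
abbrev E : Type u := ℕ →₀ (A × KmodA A)

/-- The trivial extension (idealization) of `A` by the module `E A`, that is `A × E A` with the
multiplication `(a, e) (b, f) = (a b, a f + b e)`. -/
def Rg : Type u := TrivSqZeroExt A (E A)

noncomputable instance : CommRing (Rg A) := inferInstanceAs (CommRing (TrivSqZeroExt A (E A)))

variable {A}

/-- The first component. -/
def fs (x : Rg A) : A := TrivSqZeroExt.fst x

/-- The second component. -/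
def sn (x : Rg A) : E A := TrivSqZeroExt.snd x

/-- The element `(a, 0)`. -/
def il (a : A) : Rg A := TrivSqZeroExt.inl a

/-- The element `(0, e)`. -/
def ir (e : E A) : Rg A := TrivSqZeroExt.inr e

lemma rg_ext {x y : Rg A} (h1 : fs x = fs y) (h2 : sn x = sn y) : x = y := TrivSqZeroExt.ext h1 h2

@[simp] lemma fs_il (a : A) : fs (il a) = a := rfl
@[simp] lemma sn_il (a : A) : sn (il a) = 0 := rfl
@[simp] lemma fs_ir (e : E A) : fs (ir e) = 0 := rfl
@[simp] lemma sn_ir (e : E A) : sn (ir e) = e := rfl
@[simp] lemma fs_zero : fs (0 : Rg A) = 0 := rfl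
@[simp] lemma sn_zero : sn (0 : Rg A) = 0 := rfl
@[simp] lemma fs_one : fs (1 : Rg A) = 1 := rfl
@[simp] lemma sn_one : sn (1 : Rg A) = 0 := rfl
@[simp] lemma fs_add (x y : Rg A) : fs (x + y) = fs x + fs y := rfl
@[simp] lemma sn_add (x y : Rg A) : sn (x + y) = sn x + sn y := rfl
@[simp] lemma fs_mul (x y : Rg A) : fs (x * y) = fs x * fs y := rfl
@[simp] lemma sn_mul (x y : Rg A) : sn (x * y) = fs x • sn y + fs y • sn x := by
  have : MulOpposite.op (fs y) • sn x = fs y • sn x := op_smul_eq_smul _ _
  rw [← this]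
  rfl

/-- First component as an additive map. -/
def fsHom : Rg A →+ A where
  toFun := fs
  map_zero' := rfl
  map_add' _ _ := rfl

/-- Second component as an additive map. -/
def snHom : Rg A →+ E A where
  toFun := sn
  map_zero' := rfl
  map_add' _ _ := rfl

lemma fs_sum {ι : Type*} (s : Finset ι) (f : ι → Rg A) : fs (∑ i ∈ s, f i) = ∑ i ∈ s, fs (f i) :=
  map_sum (fsHom (A := A)) f s

lemma sn_sum {ι : Type*} (s : Finset ι) (f : ι → Rg A) : sn (∑ i ∈ s, f i) = ∑ i ∈ s, sn (f i) :=
  map_sum (snHom (A := A)) f s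

lemma isUnit_of_fs {x : Rg A} (h : fs x = 1) : IsUnit x := by
  rw [isUnit_iff_exists_inv]
  refine ⟨il 1 + ir (-(sn x)), rg_ext ?_ ?_⟩
  · simp [h]
  · simp [h]

/-- Every finitely presented ideal of the trivial extension of `A` by `E A` is `0` or the whole
ring. -/
lemma eq_bot_or_top [IsDomain A] (I : Ideal (Rg A))
    (hI : Module.FinitePresentation (Rg A) I) : I = ⊥ ∨ I = ⊤ := by
  have hfg : (I : Submodule (Rg A) (Rg A)).FG := Module.Finite.iff_fg.1 inferInstance
  obtain ⟨m, r, hr⟩ := Submodule.fg_iff_exists_fin_generating_family.1 hfg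
  let π : (Fin m → (Rg A)) →ₗ[(Rg A)] (Rg A) := Fintype.linearCombination (Rg A) r
  have hπ : ∀ s, π s = ∑ i, s i * r i := fun s => by
    simp [π, Fintype.linearCombination_apply]
  have hrange : LinearMap.range π = I := by
    rw [Fintype.range_linearCombination, hr]
  have hmem : ∀ s, π s ∈ I := fun s => hrange ▸ LinearMap.mem_range_self π s
  have hkerfg : (LinearMap.ker π).FG := by
    have h1 : LinearMap.ker (π.codRestrict I hmem) = LinearMap.ker π :=
      LinearMap.ker_codRestrict _ _ _
    rw [← h1]
    apply Module.FinitePresentation.fg_ker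
    rintro ⟨x, hx⟩
    rw [← hrange] at hx
    obtain ⟨s, hs⟩ := hx
    exact ⟨s, Subtype.ext hs⟩
  obtain ⟨N, k, hk⟩ := Submodule.fg_iff_exists_fin_generating_family.1 hkerfg
  have hkmem : ∀ j, ∑ i, k j i * r i = 0 := fun j => by
    have : k j ∈ LinearMap.ker π := hk ▸ Submodule.subset_span ⟨j, rfl⟩
    rw [← hπ]; exact this
  -- an index outside all supports
  obtain ⟨n0, hn0⟩ : ∃ n0 : ℕ, ∀ j i, (sn (k j i)) n0 = 0 := by
    obtain ⟨n0, hn0⟩ := Infinite.exists_notMem_finset
      (Finset.univ.biUnion fun j : Fin N => Finset.univ.biUnion fun i : Fin m => (sn (k j i)).support)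
    refine ⟨n0, fun j i => ?_⟩
    by_contra h
    apply hn0
    simp only [Finset.mem_biUnion, Finset.mem_univ, true_and, Finsupp.mem_support_iff]
    exact ⟨j, i, h⟩
  have hstar : ∀ f : Fin m → (A × KmodA A), ∑ i, (fs (r i)) • f i = 0 →
      ∃ h : Fin N → (A × KmodA A), ∀ i, f i = ∑ j, (fs (k j i)) • h j := by
    intro f hf
    have h1 : (fun i => (ir (Finsupp.single n0 (f i)) : (Rg A))) ∈ LinearMap.ker π := by
      rw [LinearMap.mem_ker, hπ]
      apply rg_ext
      · rw [fs_sum]; simp
      · rw [sn_sum]
        simp only [sn_mul, fs_ir, zero_smul, zero_add, sn_ir, Finsupp.smul_single, sn_zero]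
        rw [← Finsupp.single_finsetSum, hf]
        simp
    rw [← hk, Submodule.mem_span_range_iff_exists_fun] at h1
    obtain ⟨c, hc⟩ := h1
    refine ⟨fun j => (sn (c j)) n0, fun i => ?_⟩
    have h3 := congrArg (fun x : (Rg A) => (sn x) n0) (congrFun hc i)
    simp only [Finset.sum_apply, Pi.smul_apply, smul_eq_mul, sn_sum, sn_ir,
      Finsupp.finsetSum_apply, sn_mul, Finsupp.add_apply, Finsupp.smul_apply, hn0, smul_zero,
      zero_add, Finsupp.single_eq_same] at h3
    rw [← h3]
  by_cases hzero : ∀ i, (fs (r i)) = 0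
  · left
    have hri : ∀ i, r i = 0 := by
      intro i0
      obtain ⟨h, hh⟩ := hstar (fun i => if i = i0 then (1, 0) else 0) (by simp [hzero])
      have h1 : ∀ j, ∑ i, (fs (k j i)) • (sn (r i)) = 0 := by
        intro j
        have h2 := congrArg sn (hkmem j)
        simp only [sn_sum, sn_mul, hzero, sn_zero, zero_smul, add_zero] at h2
        exact h2
      have h2 : ∀ i, (if i = i0 then (1 : A) else 0) = ∑ j, (fs (k j i)) * (h j).1 := by
        intro i
        have h3 := congrArg Prod.fst (hh i)
        rw [Prod.fst_sum] at h3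
        simp only [Prod.smul_fst, smul_eq_mul] at h3
        rw [← h3]
        split_ifs <;> rfl
      apply rg_ext
      · exact hzero i0
      · rw [sn_zero]
        calc (sn (r i0)) = ∑ i, (if i = i0 then (1 : A) else 0) • (sn (r i)) := by
              simp [ite_smul]
          _ = ∑ i, ∑ j, (h j).1 • ((fs (k j i)) • (sn (r i))) := by
              refine Finset.sum_congr rfl fun i _ => ?_
              rw [h2, Finset.sum_smul]
              refine Finset.sum_congr rfl fun j _ => ?_
              rw [smul_smul, mul_comm]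
          _ = ∑ j, (h j).1 • ∑ i, (fs (k j i)) • (sn (r i)) := by
              rw [Finset.sum_comm]
              refine Finset.sum_congr rfl fun j _ => ?_
              rw [Finset.smul_sum]
          _ = 0 := by simp [h1]
    rw [← hr, eq_bot_iff, Submodule.span_le]
    rintro _ ⟨i, rfl⟩
    rw [hri]
    exact Submodule.zero_mem _
  · right
    push Not at hzero
    obtain ⟨i0, hi0⟩ := hzero
    let K := FractionRing A
    have hi0' : algebraMap A K (fs (r i0)) ≠ 0 := by
      rw [Ne, IsFractionRing.to_map_eq_zero_iff]; exact hi0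
    let F : Fin m → K := fun i => if i = i0 then (algebraMap A K (fs (r i0)))⁻¹ else 0
    obtain ⟨h, hh⟩ := hstar (fun i => (0, Submodule.Quotient.mk (F i))) (by
      apply Prod.ext
      · rw [Prod.fst_sum]; simp
      · rw [Prod.snd_sum]
        simp only [Prod.smul_snd, ← Submodule.Quotient.mk_smul]
        rw [Finset.sum_eq_single i0]
        · rw [Prod.snd_zero, Submodule.Quotient.mk_eq_zero]
          refine ⟨1, ?_⟩
          simp only [F, if_true, Algebra.linearMap_apply, map_one, Algebra.smul_def]
          rw [mul_inv_cancel₀ hi0']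
        · intro i _ hi
          simp [F, hi]
        · simp)
    choose H hH using fun j => Submodule.Quotient.mk_surjective _ (h j).2
    have h1 : ∀ i, ∃ w : A, F i - ∑ j, (fs (k j i)) • H j = algebraMap A K w := by
      intro i
      have h2 := congrArg Prod.snd (hh i)
      rw [Prod.snd_sum] at h2
      simp only [Prod.smul_snd] at h2
      have h3 : (Submodule.Quotient.mk (F i - ∑ j, (fs (k j i)) • H j) : KmodA A) = 0 := by
        rw [Submodule.Quotient.mk_sub, h2, sub_eq_zero]
        rw [← Submodule.mkQ_apply, map_sum]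
        refine Finset.sum_congr rfl fun j _ => ?_
        rw [map_smul, Submodule.mkQ_apply, hH]
      rw [Submodule.Quotient.mk_eq_zero] at h3
      obtain ⟨w, hw⟩ := h3
      exact ⟨w, hw.symm⟩
    choose w hw using h1
    have hsum : ∑ i, w i * (fs (r i)) = 1 := by
      apply IsFractionRing.injective A K
      rw [map_sum, map_one]
      simp only [map_mul, ← hw]
      have e1 : ∑ i, F i * algebraMap A K (fs (r i)) = 1 := by
        rw [Finset.sum_eq_single i0]
        · simp only [F, if_true]
          rw [inv_mul_cancel₀ hi0']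
        · intro i _ hi
          simp [F, hi]
        · simp
      have e2 : ∑ i, (∑ j, (fs (k j i)) • H j) * algebraMap A K (fs (r i)) = 0 := by
        calc ∑ i, (∑ j, (fs (k j i)) • H j) * algebraMap A K (fs (r i))
            = ∑ i, ∑ j, H j * algebraMap A K ((fs (k j i)) * (fs (r i))) := by
              refine Finset.sum_congr rfl fun i _ => ?_
              rw [Finset.sum_mul]
              refine Finset.sum_congr rfl fun j _ => ?_
              rw [Algebra.smul_def, map_mul]; ring
          _ = ∑ j, H j * algebraMap A K (∑ i, (fs (k j i)) * (fs (r i))) := by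
              rw [Finset.sum_comm]
              refine Finset.sum_congr rfl fun j _ => ?_
              rw [map_sum, Finset.mul_sum]
          _ = 0 := by
              have : ∀ j, ∑ i, (fs (k j i)) * (fs (r i)) = 0 := by
                intro j
                have h2 := congrArg fs (hkmem j)
                simpa only [fs_sum, fs_mul, fs_zero] using h2
              simp [this]
      simp only [sub_mul, Finset.sum_sub_distrib, e1, e2, sub_zero]
    have hunit : IsUnit (∑ i, (il (w i) : (Rg A)) * r i) := by
      apply isUnit_of_fs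
      rw [fs_sum]
      simp only [fs_mul, fs_il, hsum]
    apply Ideal.eq_top_of_isUnit_mem I _ hunit
    have := hmem (fun i => il (w i))
    rwa [hπ] at this

end Ring

/-! ### The module of projective dimension one -/

section Final

/-- Elements of `E ℤ[X]` killed by `2` and `X` vanish. -/
lemma ann_E (e : E ℤ[X]) (h2 : (2 : ℤ[X]) • e = 0) (hX : (X : ℤ[X]) • e = 0) : e = 0 := by
  refine Finsupp.ext fun n => Prod.ext ?_ ?_
  · have h := congrArg Prod.fst (DFunLike.congr_fun h2 n)
    simpa using h
  · have ha := congrArg Prod.snd (DFunLike.congr_fun h2 n)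
    have hb := congrArg Prod.snd (DFunLike.congr_fun hX n)
    simp only [Finsupp.smul_apply, Prod.smul_snd, Finsupp.coe_zero, Pi.zero_apply,
      Prod.snd_zero] at ha hb ⊢
    obtain ⟨k, hk⟩ := Submodule.Quotient.mk_surjective _ (e n).2
    rw [← hk, ← Submodule.Quotient.mk_smul, Submodule.Quotient.mk_eq_zero] at ha hb
    rw [← hk, Submodule.Quotient.mk_eq_zero]
    obtain ⟨s, hs⟩ := ha
    obtain ⟨t, ht⟩ := hb
    rw [Algebra.linearMap_apply, Algebra.smul_def] at hs ht
    have h1 : X * s = 2 * t := by
      apply IsFractionRing.injective ℤ[X] (FractionRing ℤ[X])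
      rw [map_mul, map_mul, hs, ht]; ring
    have hdvd : (X : ℤ[X]) ∣ 2 * t := ⟨s, h1.symm⟩
    have h3 : (X : ℤ[X]) ∣ t := by
      rcases (Polynomial.prime_X (R := ℤ)).dvd_or_dvd hdvd with h | h
      · exfalso
        rw [X_dvd_iff] at h
        have : (2 : ℤ[X]).coeff 0 = 2 := by
          have : (2 : ℤ[X]) = C 2 := by simp
          rw [this, coeff_C_zero]
        omega
      · exact h
    obtain ⟨w, hw⟩ := h3
    refine ⟨w, ?_⟩
    rw [Algebra.linearMap_apply]
    have hX0 : algebraMap ℤ[X] (FractionRing ℤ[X]) X ≠ 0 := by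
      rw [Ne, IsFractionRing.to_map_eq_zero_iff]; exact X_ne_zero
    apply mul_left_cancel₀ hX0
    rw [← ht, hw, map_mul]

/-- The map `r ↦ (2 r, X r)`. -/
noncomputable def iota : Rg ℤ[X] →ₗ[Rg ℤ[X]] (Rg ℤ[X] × Rg ℤ[X]) :=
  (LinearMap.toSpanSingleton _ _ (il 2)).prod (LinearMap.toSpanSingleton _ _ (il X))

lemma iota_apply (r : Rg ℤ[X]) : iota r = (r * il 2, r * il X) := rfl

lemma iota_injective : Function.Injective iota := by
  rw [← LinearMap.ker_eq_bot, LinearMap.ker_eq_bot']
  intro r hr
  rw [iota_apply] at hr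
  have h1 := congrArg Prod.fst hr
  have h2 := congrArg Prod.snd hr
  have a1 := congrArg fs h1
  have b1 := congrArg sn h1
  have b2 := congrArg sn h2
  simp only [fs_mul, fs_il, Prod.fst_zero, fs_zero, mul_eq_zero, OfNat.ofNat_ne_zero,
    or_false] at a1
  simp only [sn_mul, fs_il, sn_il, smul_zero, zero_add, Prod.fst_zero, Prod.snd_zero,
    sn_zero] at b1 b2
  exact rg_ext a1 (ann_E _ b1 b2)

/-- The cokernel of `iota`. -/
abbrev Coker : Type := (Rg ℤ[X] × Rg ℤ[X]) ⧸ LinearMap.range iota

lemma finiteRes_coker : FiniteRes (Rg ℤ[X]) 1 Coker := by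
  refine ⟨Rg ℤ[X] × Rg ℤ[X], inferInstance, inferInstance, (LinearMap.range iota).mkQ,
    inferInstance, inferInstance, Submodule.mkQ_surjective _, ?_⟩
  have e : Rg ℤ[X] ≃ₗ[Rg ℤ[X]] LinearMap.ker (LinearMap.range iota).mkQ :=
    (LinearEquiv.ofInjective iota iota_injective).trans
      (LinearEquiv.ofEq _ _ (Submodule.ker_mkQ _).symm)
  exact ⟨Module.Finite.equiv e, Module.Projective.of_equiv e⟩

lemma not_projective_coker : ¬ Module.Projective (Rg ℤ[X]) Coker := by
  intro h
  obtain ⟨σ, hσ⟩ := Module.projective_lifting_property (LinearMap.range iota).mkQ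
    (LinearMap.id : Coker →ₗ[Rg ℤ[X]] Coker) (Submodule.mkQ_surjective _)
  have hσ' : ∀ z, (LinearMap.range iota).mkQ (σ z) = z := fun z => by
    rw [← LinearMap.comp_apply, hσ]; rfl
  have hmem : ∀ v, v - σ ((LinearMap.range iota).mkQ v) ∈ LinearMap.range iota := by
    intro v
    rw [← Submodule.Quotient.mk_eq_zero, ← Submodule.mkQ_apply, map_sub, hσ', sub_self]
  let ρ : (Rg ℤ[X] × Rg ℤ[X]) →ₗ[Rg ℤ[X]] Rg ℤ[X] :=
    (LinearEquiv.ofInjective iota iota_injective).symm.toLinearMap ∘ₗ
      (LinearMap.id - σ ∘ₗ (LinearMap.range iota).mkQ).codRestrict (LinearMap.range iota) hmem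
  have hρ : ρ (iota 1) = 1 := by
    have h0 : (LinearMap.range iota).mkQ (iota 1) = 0 := by
      rw [← LinearMap.mem_ker, Submodule.ker_mkQ]
      exact LinearMap.mem_range_self _ _
    have h1 : (LinearMap.id - σ ∘ₗ (LinearMap.range iota).mkQ).codRestrict (LinearMap.range iota)
        hmem (iota 1) = LinearEquiv.ofInjective iota iota_injective 1 := by
      apply Subtype.ext
      show iota 1 - σ ((LinearMap.range iota).mkQ (iota 1)) = iota 1
      rw [h0, map_zero, sub_zero]
    show (LinearEquiv.ofInjective iota iota_injective).symm _ = 1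
    rw [h1, LinearEquiv.symm_apply_apply]
  have h1 : iota 1 = (il 2 : Rg ℤ[X]) • ((1, 0) : Rg ℤ[X] × Rg ℤ[X]) +
      (il X : Rg ℤ[X]) • ((0, 1) : Rg ℤ[X] × Rg ℤ[X]) := by
    rw [iota_apply, one_mul, one_mul]
    simp
  rw [h1, map_add, map_smul, map_smul] at hρ
  have h2 := congrArg fs hρ
  simp only [smul_eq_mul, fs_add, fs_mul, fs_il, fs_one] at h2
  have h3 := congrArg (fun p : ℤ[X] => p.coeff 0) h2
  simp only [coeff_add, mul_coeff_zero, coeff_X_zero, zero_mul, add_zero, coeff_one_zero] at h3
  have : (2 : ℤ[X]).coeff 0 = 2 := by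
    have : (2 : ℤ[X]) = C 2 := by simp
    rw [this, coeff_C_zero]
  rw [this] at h3
  omega

/-- There is a commutative ring which is a weak `(n,0)`-ring in the sense of Mahdou for all
`n ≥ 2`, in particular a weak `(2,0)`-ring, whose small finitistic dimension is positive. -/
theorem result : ∃ (R : Type) (_ : CommRing R),
    (∀ n : ℕ, 2 ≤ n → WeakMahdou R n 0) ∧ 0 < fPD R := by
  refine ⟨Rg ℤ[X], inferInstance, ?_, ?_⟩
  · intro n hn I hI
    have hfp := fp_of_twoPresented I (hI.mono hn)
    have hproj : Module.Projective (Rg ℤ[X]) (Rg ℤ[X] ⧸ I) := by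
      rcases eq_bot_or_top I hfp with h | h
      · subst h
        exact Module.Projective.of_equiv (Submodule.quotEquivOfEqBot (⊥ : Ideal (Rg ℤ[X])) rfl).symm
      · subst h
        have : Subsingleton (Rg ℤ[X] ⧸ (⊤ : Ideal (Rg ℤ[X]))) := Submodule.Quotient.subsingleton_iff.2 rfl
        infer_instance
    rw [IsProjective.iff_projective, projective_iff_hasProjectiveDimensionLE_zero,
      ← projectiveDimension_le_iff] at hproj
    exact_mod_cast hproj
  · have h1 : projectiveDimension (ModuleCat.of (Rg ℤ[X]) Coker) ≤ fPD (Rg ℤ[X]) :=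
      le_iSup₂ (f := fun (M : ModuleCat.{0} (Rg ℤ[X])) (_ : ∃ m, FiniteRes (Rg ℤ[X]) m M) =>
        projectiveDimension M) (ModuleCat.of (Rg ℤ[X]) Coker) ⟨1, finiteRes_coker⟩
    refine lt_of_lt_of_le ?_ h1
    by_contra h2
    rw [not_lt] at h2
    have h3 : projectiveDimension (ModuleCat.of (Rg ℤ[X]) Coker) ≤ ((0 : ℕ) : WithBot ℕ∞) := by
      exact_mod_cast h2
    rw [projectiveDimension_le_iff, ← projective_iff_hasProjectiveDimensionLE_zero,
      ← IsProjective.iff_projective] at h3
    exact not_projective_coker h3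

end Final

end Pool.Agent.Results.MP_682377_al.WeakTwoZero
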